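import Mathlib

/-!
# The convex hull of the Tverberg points can be smaller than the core

Nine points of `ℝ³` in general position (no four in a plane), `τ = 3`, so that
`9 = (τ - 1)(d + 1) + 1`. The origin lies in `core_2(S)`: the point sets `{p₀, p₆}`, `{p₁, p₂, p₈}`,
`{p₁, p₃, p₇}`, `{p₂, p₄, p₇}` have the origin in their convex hulls, and no two points hit all four
of them. For each coordinate at most two of the points have a negative coordinate, so `D_3(S)` lies
in the closed positive octant, and the origin is not in `D_3(S)`; hence it is not in `conv D_3(S)`.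
-/

set_option autoImplicit false

namespace Pool.Agent.Results.MP_8fed12_co.CoreCounterexample

open Finset

/-- The set `D_τ(S)` of the points which lie in the convex hulls of all parts of some partition of
`S` into `τ` parts (the parts are the sets of the points of `S` of the same colour). -/
def tverbergPoints {d : ℕ} (τ : ℕ) (S : Finset (EuclideanSpace ℝ (Fin d))) :
    Set (EuclideanSpace ℝ (Fin d)) :=
  {p | ∃ f : EuclideanSpace ℝ (Fin d) → Fin τ, ∀ i, p ∈ convexHull ℝ {x | x ∈ S ∧ f x = i}}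

/-- `core_σ(S)`: the intersection of the convex hulls of the sets `S \ T`, `T ⊆ S`, `|T| ≤ σ`. -/
def core {d : ℕ} (σ : ℕ) (S : Finset (EuclideanSpace ℝ (Fin d))) :
    Set (EuclideanSpace ℝ (Fin d)) :=
  {p | ∀ T : Finset (EuclideanSpace ℝ (Fin d)), T ⊆ S → T.card ≤ σ →
    p ∈ convexHull ℝ {x | x ∈ S ∧ x ∉ T}}

lemma core_convex {d : ℕ} (σ : ℕ) (S : Finset (EuclideanSpace ℝ (Fin d))) :
    Convex ℝ (core σ S) := by
  intro x hx y hy a b ha hb hab T hT hc
  exact convex_convexHull ℝ _ (hx T hT hc) (hy T hT hc) ha hb hab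

lemma tverberg_subset_core {d : ℕ} (τ : ℕ) (S : Finset (EuclideanSpace ℝ (Fin d))) :
    tverbergPoints (τ + 1) S ⊆ core τ S := by
  classical
  rintro p ⟨f, hf⟩ T hT hc
  obtain ⟨i, hi⟩ : ∃ i : Fin (τ + 1), i ∉ T.image f := by
    by_contra hcon
    push Not at hcon
    have h1 : (univ : Finset (Fin (τ + 1))) ⊆ T.image f := fun i _ => hcon i
    have h2 := card_le_card h1
    have h3 : (T.image f).card ≤ T.card := card_image_le
    rw [card_univ, Fintype.card_fin] at h2
    omega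
  refine convexHull_mono ?_ (hf i)
  rintro x ⟨hx, hxi⟩
  exact ⟨hx, fun hxT => hi (mem_image.2 ⟨x, hxT, hxi⟩)⟩

/-- the coordinates of the nine points -/
def q : Fin 9 → Fin 3 → ℤ :=
  ![![0, 3, 0], ![-1, -1, 0], ![0, 0, -2], ![2, 3, 1], ![-2, 0, 3], ![3, 1, 2], ![0, -2, 0],
    ![3, 0, -3], ![3, 3, 3]]

/-- the nine points -/
noncomputable def pt (i : Fin 9) : EuclideanSpace ℝ (Fin 3) :=
  WithLp.toLp 2 (fun k => (q i k : ℝ))

lemma pt_apply (i : Fin 9) (k : Fin 3) : pt i k = (q i k : ℝ) := rfl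

lemma q_inj : Function.Injective q := by decide +kernel

lemma pt_inj : Function.Injective pt := by
  intro i j h
  apply q_inj
  funext k
  have := congrArg (fun x : EuclideanSpace ℝ (Fin 3) => x k) h
  simp only [pt_apply] at this
  exact_mod_cast this

/-- the set of the nine points -/
noncomputable def S9 : Finset (EuclideanSpace ℝ (Fin 3)) := univ.map ⟨pt, pt_inj⟩

lemma mem_S9 {x : EuclideanSpace ℝ (Fin 3)} : x ∈ S9 ↔ ∃ i, pt i = x := by
  simp [S9]

lemma pt_mem (i : Fin 9) : pt i ∈ S9 := mem_S9.2 ⟨i, rfl⟩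

/-- Weights for the origin. -/
lemma exists_weights (f : EuclideanSpace ℝ (Fin 3) → Fin 3) (c : Fin 3)
    (h : (0 : EuclideanSpace ℝ (Fin 3)) ∈ convexHull ℝ {x | x ∈ S9 ∧ f x = c}) :
    ∃ w : Fin 9 → ℝ, (∀ i, 0 ≤ w i) ∧ (∀ i, f (pt i) ≠ c → w i = 0) ∧ ∑ i, w i = 1 ∧
      ∀ k, ∑ i, w i * (q i k : ℝ) = 0 := by
  classical
  have hset : {x | x ∈ S9 ∧ f x = c} =
      ((S9.filter (fun x => f x = c) : Finset (EuclideanSpace ℝ (Fin 3))) :
        Set (EuclideanSpace ℝ (Fin 3))) := by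
    ext x
    simp
  rw [hset, Finset.mem_convexHull'] at h
  obtain ⟨w, hw0, hw1, hw2⟩ := h
  refine ⟨fun i => if f (pt i) = c then w (pt i) else 0, ?_, ?_, ?_, ?_⟩
  · intro i
    dsimp only
    split_ifs with hi
    · exact hw0 _ (mem_filter.2 ⟨pt_mem i, hi⟩)
    · exact le_rfl
  · intro i hi
    simp [hi]
  · rw [sum_filter, S9, sum_map] at hw1
    simpa using hw1
  · intro k
    rw [sum_filter, S9, sum_map] at hw2
    have := congrArg (fun x : EuclideanSpace ℝ (Fin 3) => x k) hw2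
    simp only [Function.Embedding.coeFn_mk, WithLp.ofLp_sum, Finset.sum_apply,
      PiLp.zero_apply] at this
    refine Eq.trans (sum_congr rfl fun i _ => ?_) this
    by_cases hi : f (pt i) = c
    · simp [hi, pt_apply]
    · simp [hi]

lemma zero_not_tverberg : (0 : EuclideanSpace ℝ (Fin 3)) ∉ tverbergPoints 3 S9 := by
  rintro ⟨f, hf⟩
  -- a part without `p₂`, `p₇` contains `p₀` and `p₆`
  have key1 : ∀ c : Fin 3, f (pt 2) ≠ c → f (pt 7) ≠ c → f (pt 0) = c ∧ f (pt 6) = c := by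
    intro c h2 h7
    obtain ⟨w, h0, hne, hs, hk⟩ := exists_weights f c (hf c)
    have e0 := hk 0
    have e1 := hk 1
    have e2 := hk 2
    simp [Fin.sum_univ_succ, q] at e0 e1 e2 hs
    have w2 := hne 2 h2
    have w7 := hne 7 h7
    have n0 := h0 0
    have n1 := h0 1
    have n3 := h0 3
    have n4 := h0 4
    have n5 := h0 5
    have n6 := h0 6
    have n8 := h0 8
    have z3 : w 3 = 0 := by linarith
    have z4 : w 4 = 0 := by linarith
    have z5 : w 5 = 0 := by linarith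
    have z8 : w 8 = 0 := by linarith
    have z1 : w 1 = 0 := by linarith
    constructor
    · by_contra hcon
      have := hne 0 hcon
      linarith
    · by_contra hcon
      have := hne 6 hcon
      linarith
  -- a part without `p₁`, `p₆` contains `p₂` and `p₇`
  have key2 : ∀ c : Fin 3, f (pt 1) ≠ c → f (pt 6) ≠ c → f (pt 2) = c ∧ f (pt 7) = c := by
    intro c h1 h6
    obtain ⟨w, h0, hne, hs, hk⟩ := exists_weights f c (hf c)
    have e0 := hk 0
    have e1 := hk 1
    have e2 := hk 2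
    simp [Fin.sum_univ_succ, q] at e0 e1 e2 hs
    have w1 := hne 1 h1
    have w6 := hne 6 h6
    have n0 := h0 0
    have n2 := h0 2
    have n3 := h0 3
    have n4 := h0 4
    have n5 := h0 5
    have n7 := h0 7
    have n8 := h0 8
    have z0 : w 0 = 0 := by linarith
    have z3 : w 3 = 0 := by linarith
    have z5 : w 5 = 0 := by linarith
    have z8 : w 8 = 0 := by linarith
    constructor
    · by_contra hcon
      have := hne 2 hcon
      linarith
    · by_contra hcon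
      have := hne 7 hcon
      linarith
  obtain ⟨a, ha2, ha7⟩ : ∃ a, f (pt 2) ≠ a ∧ f (pt 7) ≠ a := by
    generalize f (pt 2) = u
    generalize f (pt 7) = v
    revert u v
    decide
  obtain ⟨ha0, ha6⟩ := key1 a ha2 ha7
  obtain ⟨b, hab, hb1⟩ : ∃ b, a ≠ b ∧ f (pt 1) ≠ b := by
    generalize f (pt 1) = u
    clear key1 key2 ha2 ha7 ha0 ha6
    revert u a
    decide
  obtain ⟨hb2, hb7⟩ := key2 b hb1 (by rw [ha6]; exact hab)
  obtain ⟨c, hac, hbc⟩ : ∃ c, a ≠ c ∧ b ≠ c := by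
    clear key1 key2 ha2 ha7 ha0 ha6 hb1 hb2 hb7
    revert a b
    decide
  obtain ⟨hc0, -⟩ := key1 c (by rw [hb2]; exact hbc) (by rw [hb7]; exact hbc)
  exact hac (ha0.symm.trans hc0)

/-- the indices of the points with a negative `k`-th coordinate -/
def neg1 : Fin 3 → Fin 9 := ![1, 1, 2]

/-- the indices of the points with a negative `k`-th coordinate -/
def neg2 : Fin 3 → Fin 9 := ![4, 6, 7]

lemma q_nonneg : ∀ k i, i ≠ neg1 k → i ≠ neg2 k → 0 ≤ q i k := by decide +kernel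

lemma tverberg_nonneg {p : EuclideanSpace ℝ (Fin 3)} (hp : p ∈ tverbergPoints 3 S9) (k : Fin 3) :
    0 ≤ p k := by
  obtain ⟨f, hf⟩ := hp
  obtain ⟨a, ha1, ha2⟩ : ∃ a, f (pt (neg1 k)) ≠ a ∧ f (pt (neg2 k)) ≠ a := by
    generalize f (pt (neg1 k)) = u
    generalize f (pt (neg2 k)) = v
    revert u v
    decide
  have hconv : Convex ℝ {x : EuclideanSpace ℝ (Fin 3) | 0 ≤ x k} := by
    intro x hx y hy s t hs ht _
    have hx' : 0 ≤ x k := hx
    have hy' : 0 ≤ y k := hy
    show 0 ≤ (s • x + t • y) k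
    have : (s • x + t • y) k = s * x k + t * y k := by simp
    rw [this]
    positivity
  refine convexHull_min ?_ hconv (hf a)
  rintro x ⟨hx, hxa⟩
  obtain ⟨i, rfl⟩ := mem_S9.1 hx
  have h1 : i ≠ neg1 k := by
    rintro rfl
    exact ha1 hxa
  have h2 : i ≠ neg2 k := by
    rintro rfl
    exact ha2 hxa
  show 0 ≤ pt i k
  rw [pt_apply]
  exact Int.cast_nonneg (q_nonneg k i h1 h2)

lemma zero_not_conv : (0 : EuclideanSpace ℝ (Fin 3)) ∉ convexHull ℝ (tverbergPoints 3 S9) := by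
  have hconv : Convex ℝ {x : EuclideanSpace ℝ (Fin 3) | (∀ k, 0 ≤ x k) ∧ 0 < x 0 + x 1 + x 2} := by
    rintro x ⟨hx, hx'⟩ y ⟨hy, hy'⟩ s t hs ht hst
    have hval : ∀ k, (s • x + t • y) k = s * x k + t * y k := fun k => by simp
    refine ⟨fun k => ?_, ?_⟩
    · rw [hval]
      have := hx k
      have := hy k
      positivity
    · rw [hval, hval, hval]
      rcases hs.eq_or_lt with h | h
      · have ht1 : t = 1 := by linarith
        rw [← h, ht1]
        linarith
      · have h1 : 0 < s * (x 0 + x 1 + x 2) := mul_pos h hx'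
        have h2 : 0 ≤ t * (y 0 + y 1 + y 2) := mul_nonneg ht hy'.le
        linarith
  intro h0
  have hsub : tverbergPoints 3 S9 ⊆
      {x : EuclideanSpace ℝ (Fin 3) | (∀ k, 0 ≤ x k) ∧ 0 < x 0 + x 1 + x 2} := by
    intro p hp
    refine ⟨tverberg_nonneg hp, ?_⟩
    have n0 := tverberg_nonneg hp 0
    have n1 := tverberg_nonneg hp 1
    have n2 := tverberg_nonneg hp 2
    rcases (add_nonneg (add_nonneg n0 n1) n2).eq_or_lt with h | h
    · exfalso
      have h3 : p = 0 := by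
        ext k
        fin_cases k
        · show p 0 = 0
          linarith
        · show p 1 = 0
          linarith
        · show p 2 = 0
          linarith
      rw [h3] at hp
      exact zero_not_tverberg hp
    · exact h
  have := convexHull_min hsub hconv h0
  have h2 := this.2
  simp at h2

lemma zero_mem_of {A : Set (EuclideanSpace ℝ (Fin 3))} {n : ℕ} (g : Fin n → Fin 9)
    (w : Fin n → ℝ) (hg : ∀ i, pt (g i) ∈ A) (hw : ∀ i, 0 ≤ w i) (hs : ∑ i, w i = 1)
    (hk : ∀ k, ∑ i, w i * (q (g i) k : ℝ) = 0) :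
    (0 : EuclideanSpace ℝ (Fin 3)) ∈ convexHull ℝ A := by
  have h : ∑ i, w i • pt (g i) ∈ convexHull ℝ A :=
    (convex_convexHull ℝ A).sum_mem (fun i _ => hw i) hs
      (fun i _ => subset_convexHull ℝ A (hg i))
  have h0 : ∑ i, w i • pt (g i) = 0 := by
    ext k
    refine Eq.trans ?_ (hk k)
    simp [pt_apply, WithLp.ofLp_sum, Finset.sum_apply]
  rwa [h0] at h

lemma cover : ∀ J : Finset (Fin 9), J.card ≤ 2 →
    (0 ∉ J ∧ 6 ∉ J) ∨ (1 ∉ J ∧ 2 ∉ J ∧ 8 ∉ J) ∨ (1 ∉ J ∧ 3 ∉ J ∧ 7 ∉ J) ∨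
      (2 ∉ J ∧ 4 ∉ J ∧ 7 ∉ J) := by
  decide +kernel

lemma zero_mem_core : (0 : EuclideanSpace ℝ (Fin 3)) ∈ core 2 S9 := by
  classical
  intro T hT hc
  set J : Finset (Fin 9) := univ.filter (fun i => pt i ∈ T) with hJ
  have hJc : J.card ≤ 2 := by
    have h1 : (J.map ⟨pt, pt_inj⟩) ⊆ T := by
      intro x hx
      obtain ⟨i, hi, rfl⟩ := mem_map.1 hx
      exact (mem_filter.1 hi).2
    have := card_le_card h1
    rw [card_map] at this
    omega
  have hmem : ∀ i, i ∉ J → pt i ∈ {x | x ∈ S9 ∧ x ∉ T} := fun i hi =>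
    ⟨pt_mem i, fun h => hi (mem_filter.2 ⟨mem_univ i, h⟩)⟩
  rcases cover J hJc with ⟨h0, h6⟩ | ⟨h1, h2, h8⟩ | ⟨h1, h3, h7⟩ | ⟨h2, h4, h7⟩
  · refine zero_mem_of ![0, 6] ![2 / 5, 3 / 5] ?_ ?_ ?_ ?_
    · intro i
      fin_cases i
      exacts [hmem 0 h0, hmem 6 h6]
    · intro i
      fin_cases i <;> norm_num
    · simp [Fin.sum_univ_succ]; norm_num
    · intro k
      fin_cases k <;> simp [Fin.sum_univ_succ, q] <;> norm_num
  · refine zero_mem_of ![1, 2, 8] ![6 / 11, 3 / 11, 2 / 11] ?_ ?_ ?_ ?_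
    · intro i
      fin_cases i
      exacts [hmem 1 h1, hmem 2 h2, hmem 8 h8]
    · intro i
      fin_cases i <;> norm_num
    · simp [Fin.sum_univ_succ]; norm_num
    · intro k
      fin_cases k <;> simp [Fin.sum_univ_succ, q] <;> norm_num
  · refine zero_mem_of ![1, 3, 7] ![9 / 13, 3 / 13, 1 / 13] ?_ ?_ ?_ ?_
    · intro i
      fin_cases i
      exacts [hmem 1 h1, hmem 3 h3, hmem 7 h7]
    · intro i
      fin_cases i <;> norm_num
    · simp [Fin.sum_univ_succ]; norm_num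
    · intro k
      fin_cases k <;> simp [Fin.sum_univ_succ, q] <;> norm_num
  · refine zero_mem_of ![2, 4, 7] ![3 / 13, 6 / 13, 4 / 13] ?_ ?_ ?_ ?_
    · intro i
      fin_cases i
      exacts [hmem 2 h2, hmem 4 h4, hmem 7 h7]
    · intro i
      fin_cases i <;> norm_num
    · simp [Fin.sum_univ_succ]; norm_num
    · intro k
      fin_cases k <;> simp [Fin.sum_univ_succ, q] <;> norm_num

/-- the determinant of `q j - q i`, `q k - q i`, `q l - q i` -/
def dt (i j k l : Fin 9) : ℤ :=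
  (q j 0 - q i 0) * ((q k 1 - q i 1) * (q l 2 - q i 2) - (q k 2 - q i 2) * (q l 1 - q i 1))
  - (q j 1 - q i 1) * ((q k 0 - q i 0) * (q l 2 - q i 2) - (q k 2 - q i 2) * (q l 0 - q i 0))
  + (q j 2 - q i 2) * ((q k 0 - q i 0) * (q l 1 - q i 1) - (q k 1 - q i 1) * (q l 0 - q i 0))

lemma dt_ne : ∀ i j k l, i ≠ j → i ≠ k → i ≠ l → j ≠ k → j ≠ l → k ≠ l → dt i j k l ≠ 0 := by
  decide +kernel

lemma cramer (u v t : Fin 3 → ℝ) (a b c : ℝ) (h : ∀ k, a * u k + b * v k + c * t k = 0)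
    (hD : u 0 * (v 1 * t 2 - v 2 * t 1) - u 1 * (v 0 * t 2 - v 2 * t 0)
      + u 2 * (v 0 * t 1 - v 1 * t 0) ≠ 0) : a = 0 ∧ b = 0 ∧ c = 0 := by
  have h0 := h 0
  have h1 := h 1
  have h2 := h 2
  refine ⟨?_, ?_, ?_⟩
  · refine (mul_eq_zero.1 (?_ : _ * a = 0)).resolve_left hD
    linear_combination (v 1 * t 2 - v 2 * t 1) * h0 - (v 0 * t 2 - v 2 * t 0) * h1
      + (v 0 * t 1 - v 1 * t 0) * h2
  · refine (mul_eq_zero.1 (?_ : _ * b = 0)).resolve_left hD
    linear_combination (t 1 * u 2 - t 2 * u 1) * h0 - (t 0 * u 2 - t 2 * u 0) * h1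
      + (t 0 * u 1 - t 1 * u 0) * h2
  · refine (mul_eq_zero.1 (?_ : _ * c = 0)).resolve_left hD
    linear_combination (u 1 * v 2 - u 2 * v 1) * h0 - (u 0 * v 2 - u 2 * v 0) * h1
      + (u 0 * v 1 - u 1 * v 0) * h2

/-- No four of the points lie in a plane. -/
lemma general_position (x y z t : EuclideanSpace ℝ (Fin 3)) (hx : x ∈ S9) (hy : y ∈ S9)
    (hz : z ∈ S9) (ht : t ∈ S9) (hxy : x ≠ y) (hxz : x ≠ z) (hxt : x ≠ t) (hyz : y ≠ z)
    (hyt : y ≠ t) (hzt : z ≠ t) : AffineIndependent ℝ ![x, y, z, t] := by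
  obtain ⟨i, rfl⟩ := mem_S9.1 hx
  obtain ⟨j, rfl⟩ := mem_S9.1 hy
  obtain ⟨k, rfl⟩ := mem_S9.1 hz
  obtain ⟨l, rfl⟩ := mem_S9.1 ht
  have hd : dt i j k l ≠ 0 := dt_ne i j k l (fun h => hxy (by rw [h])) (fun h => hxz (by rw [h]))
    (fun h => hxt (by rw [h])) (fun h => hyz (by rw [h])) (fun h => hyt (by rw [h]))
    (fun h => hzt (by rw [h]))
  have hd' : ((dt i j k l : ℤ) : ℝ) ≠ 0 := by exact_mod_cast hd
  rw [affineIndependent_iff_of_fintype]
  intro w hw0 hw1
  rw [Finset.weightedVSub_eq_linear_combination univ hw0] at hw1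
  simp only [Fin.sum_univ_four] at hw0 hw1
  have he : ∀ m, w 1 * ((q j m : ℝ) - q i m) + w 2 * ((q k m : ℝ) - q i m)
      + w 3 * ((q l m : ℝ) - q i m) = 0 := by
    intro m
    have h1 := congrArg (fun x : EuclideanSpace ℝ (Fin 3) => x m) hw1
    have h2 : w 0 * (q i m : ℝ) + w 1 * (q j m : ℝ) + w 2 * (q k m : ℝ) + w 3 * (q l m : ℝ) = 0 := by
      refine Eq.trans ?_ h1
      simp [pt_apply]
    linear_combination h2 - (q i m : ℝ) * hw0
  obtain ⟨h1, h2, h3⟩ := cramer (fun m => (q j m : ℝ) - q i m) (fun m => (q k m : ℝ) - q i m)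
    (fun m => (q l m : ℝ) - q i m) (w 1) (w 2) (w 3) he (by
      convert hd' using 1
      unfold dt
      push_cast
      ring)
  intro m
  fin_cases m
  · show w 0 = 0
    linarith
  · exact h1
  · exact h2
  · exact h3

/-- **The convex hull of the Tverberg points can be smaller than the core.** In `ℝ³` there is a set
`S` of `(3 - 1)(3 + 1) + 1 = 9` points, no four of which lie in a plane, for which
`conv D_3(S)` is a proper subset of `core_2(S)`. -/
theorem result : ∃ S : Finset (EuclideanSpace ℝ (Fin 3)),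
    S.card = (3 - 1) * (3 + 1) + 1 ∧
    (∀ x ∈ S, ∀ y ∈ S, ∀ z ∈ S, ∀ t ∈ S, x ≠ y → x ≠ z → x ≠ t → y ≠ z → y ≠ t → z ≠ t →
      AffineIndependent ℝ ![x, y, z, t]) ∧
    convexHull ℝ (tverbergPoints 3 S) ⊂ core (3 - 1) S := by
  refine ⟨S9, ?_, ?_, ?_⟩
  · simp [S9]
  · intro x hx y hy z hz t ht
    exact general_position x y z t hx hy hz ht
  · refine (Set.ssubset_iff_of_subset (convexHull_min (tverberg_subset_core 2 S9)
      (core_convex 2 S9))).2 ⟨0, zero_mem_core, zero_not_conv⟩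

end Pool.Agent.Results.MP_8fed12_co.CoreCounterexample
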